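import Pool.Agent.K6.H80.LV.Multi

/-!
Generic members of linear systems with base points on subvarieties of products of projective
spaces: the linear systems contain, on the variety, the products of the monomials of multidegree
`dg a` with at most two variables of each block and a form `g a`.
-/

set_option autoImplicit false
set_option linter.unusedSectionVars false

open MvPolynomial Pool.Agent.W602.GT Pool.Agent.TH145.GH
open Pool.Agent.TH145.GF (vE det_dec der_comb exists_lift exists_dualsG)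
open Pool.Agent.TH145.GC (exists_big)
open Pool.Agent.K6.H80.LV

namespace Pool.Agent.K6.H80.BL

variable {σ S A X : Type} [Fintype σ] [Fintype S] [Fintype A] {β : σ → S} {c : S → σ}
  {dg : A → S → ℕ}

/-- On the variety `V`, the polynomial `f` is a linear combination of the `P j`. -/
def SysP {k' : Type} [Field k'] {J : Type} [Fintype J] (β : σ → S) (V : Set (MvPolynomial σ k'))
    (P : J → MvPolynomial σ k') (f : MvPolynomial σ k') : Prop :=
  ∃ e : J → k', ∀ (Ω : Type) [Field Ω] [Algebra k' Ω] (x : σ → Ω),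
    (∀ s, ∃ l, β l = s ∧ x l = 1) → (∀ f ∈ V, aeval x f = 0) →
      aeval x f = ∑ j, algebraMap k' Ω (e j) * aeval x (P j)

open scoped Classical in
/-- The functionals. -/
theorem exists_Fn3 {k0 L : Type} [Field k0] [Field L] [Algebra k0 L] [CharZero L]
    (hc : ∀ s, β (c s) = s) {x : σ → L} (hx : ∀ s, x (c s) = 1) {J : A → Type}
    [∀ a, Fintype (J a)] (P : ∀ a, J a → MvPolynomial σ k0) (cf : ∀ a, J a → L)
    {F : A → MvPolynomial σ L} (hF : ∀ a, F a = ∑ j, C (cf a j) * map (algebraMap k0 L) (P a j))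
    {D : A → (σ →₀ ℕ) → Derivation ℤ L L} (hDk : ∀ a I (r : k0), D a I (algebraMap k0 L r) = 0)
    {γ : A → L} (hγ : ∀ a, γ a ≠ 0)
    (hD : ∀ a b, ∀ I ∈ St β c (dg b), ∑ j, D b I (cf a j) * aeval x (P a j) =
      if a = b then γ a * mn x I else 0)
    {E : X → Derivation ℤ L L} (hEk : ∀ ξ (r : k0), E ξ (algebraMap k0 L r) = 0)
    (hE : ∀ ξ b j, E ξ (cf b j) = 0)
    (halg : ∀ a, IsAlgebraic (IntermediateField.adjoin k0 (Set.range x)) (eval x (F a))) :
    ∃ φ : A → σ → L, Fn β c dg D E x φ := by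
  classical
  choose φ hφ1 hφ2 using fun a => exists_fn (k0 := k0) hc hx (F a) (halg a)
  have hs : ∀ a (f : σ → L), ∑ l, (γ a)⁻¹ * φ a l * f l = (γ a)⁻¹ * ∑ l, φ a l * f l := by
    intro a f
    rw [Finset.mul_sum]
    exact Finset.sum_congr rfl fun l _ => mul_assoc _ _ _
  refine ⟨fun a l => (γ a)⁻¹ * φ a l, fun a s => ?_, fun a ξ => ?_, fun a b I hI hab => ?_,
    fun a I hI => ?_⟩
  · rw [hs, hφ1, mul_zero]
  · have h1 := hφ2 a (E ξ) (hEk ξ)
    have h2 : ∑ j, E ξ (cf a j) * aeval x (P a j) = 0 := Finset.sum_eq_zero fun j _ => by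
      rw [hE, zero_mul]
    rw [der_coeff (P a) (cf a) (E ξ) (hEk ξ) x (hF a), h2, neg_zero] at h1
    rw [hs a fun l => E ξ (x l), h1, mul_zero]
  · have h1 := hφ2 a (D b I) (hDk b I)
    rw [der_coeff (P a) (cf a) (D b I) (hDk b I) x (hF a), hD a b I hI, if_neg hab, neg_zero] at h1
    rw [hs a fun l => D b I (x l), h1, mul_zero]
  · have h1 := hφ2 a (D a I) (hDk a I)
    rw [der_coeff (P a) (cf a) (D a I) (hDk a I) x (hF a), hD a a I hI, if_pos rfl] at h1
    rw [hs a fun l => D a I (x l), h1, mul_neg, inv_mul_cancel_left₀ (hγ a)]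

/-- Finiteness of the points at which the values of generic polynomials are algebraic over the
field of the coordinates. -/
theorem fin_points {k0 K : Type} [Field k0] [Field K] [Algebra k0 K] [IsAlgClosed K]
    [CharZero K] [IsAlgClosed k0] {m : ℕ} {μ : S → ℕ} (hc : ∀ s, β (c s) = s)
    (hd : ∀ s, μ s + m + 2 ≤ ∑ a, (dg a s + 1))
    (V : Set (MvPolynomial σ k0)) (hV : DimB k0 β V m μ)
    {J : A → Type} [∀ a, Fintype (J a)] (P : ∀ a, J a → MvPolynomial σ k0)
    (g : A → MvPolynomial σ k0)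
    (hSt : ∀ a, ∀ I ∈ St β c (dg a), ∃ j, P a j = g a * monomial I 1)
    {cf : ∀ a, J a → K} {F : A → MvPolynomial σ K}
    (hF : ∀ a, F a = ∑ j, C (cf a j) * map (algebraMap k0 K) (P a j))
    (hind : AlgebraicIndependent k0 fun p : (Σ a, J a) => cf p.1 p.2)
    (T : Finset K) :
    {x : σ → K | (∀ j, x j ∈ IntermediateField.adjoin k0 (T : Set K)) ∧ (∀ s, x (c s) = 1) ∧
      (∀ f ∈ V, aeval x f = 0) ∧ (∀ a, aeval x (g a) ≠ 0) ∧
      ∀ a, IsAlgebraic (IntermediateField.adjoin k0 (Set.range x)) (eval x (F a))}.Finite := by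
  classical
  obtain ⟨B, hB, K1, y, s, hK1, hy, hys, hs, hTK⟩ := exists_closed hind T
  have hcz : CharZero K1 := by
    constructor
    intro a b hab
    have h1 := congrArg (algebraMap K1 K) hab
    rw [map_natCast, map_natCast] at h1
    exact Nat.cast_injective h1
  have : Finite B := hB
  choose js hjs using hSt
  obtain ⟨F0, hF0'⟩ : ∃ F0 : A → MvPolynomial σ K1, ∀ a, F0 a =
      ∑ j, C (y (s ⟨a, j⟩)) * map (algebraMap k0 K1) (P a j) := ⟨_, fun _ => rfl⟩
  have hF0 : ∀ a, map (algebraMap K1 K) (F0 a) = F a := by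
    intro a
    rw [hF0', hF, map_sum]
    refine Finset.sum_congr rfl fun j _ => ?_
    have hyj : algebraMap K1 K (y (s ⟨a, j⟩)) = cf a j := hys ⟨a, j⟩
    rw [map_mul, map_C, hyj, map_map]
    rfl
  obtain ⟨T1, hT1⟩ : ∃ T1 : Finset K1, ∀ t ∈ T, ∃ t1 ∈ T1, (t1 : K) = t :=
    ⟨T.preimage (fun x : K1 => (x : K)) Subtype.val_injective.injOn, fun t ht =>
      ⟨⟨t, hTK t ht⟩, Finset.mem_preimage.2 ht, rfl⟩⟩
  obtain ⟨E, D, h1, h2, h3, h4, h5, h6, h7, h7', h8⟩ := exists_setup (β := β) (c := c) (dg := dg) hy js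
    (cf := fun a j => y (s ⟨a, j⟩)) s hs (fun p => rfl) T1
  have hEK : ∀ t ∈ IntermediateField.adjoin k0 (T : Set K), ∃ e : K1, e ∈ E ∧ (e : K) = t := by
    intro t ht
    have h9 : t ∈ Subfield.closure (Set.range (algebraMap k0 K) ∪ (T : Set K)) := by
      rw [← IntermediateField.adjoin_toSubfield]
      exact ht
    have h10 : Subfield.closure (Set.range (algebraMap k0 K) ∪ (T : Set K)) ≤
        E.toSubfield.map (algebraMap K1 K) := by
      rw [Subfield.closure_le]
      rintro z (⟨r, rfl⟩ | hz)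
      · exact ⟨algebraMap k0 K1 r, E.algebraMap_mem (algebraMap k0 _ r), rfl⟩
      · obtain ⟨t1, ht1, htz⟩ := hT1 z hz
        exact ⟨t1, h8 t1 ht1, htz⟩
    obtain ⟨e, he, het⟩ := h10 h9
    exact ⟨e, he, het⟩
  have h9 := fin_all (β := β) (c := c) (dg := dg) (k0 := k0) (m := m) E hy hc D h3 h4 h5 hd V hV
  refine (h9.image fun x j => (x j : K)).subset ?_
  rintro x ⟨hx, hx1, hxV, hxg, hxF⟩
  choose e he hex using fun j => hEK (x j) (hx j)
  have hex' : (fun j => algebraMap K1 K (e j)) = x := funext hex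
  have he1 : ∀ s, e (c s) = 1 := fun s => by
    apply Subtype.ext
    rw [hex, hx1]
    rfl
  refine ⟨e, ⟨he, he1, fun f hf => ?_, ?_⟩, funext hex⟩
  · apply (algebraMap K1 K).injective
    have h10 := hom_eval₂ f (algebraMap k0 K1) (algebraMap K1 K) e
    rw [h10, map_zero, hex']
    exact hxV f hf
  · have hge : ∀ a, aeval e (g a) ≠ 0 := by
      intro a h0
      have h10 := hom_eval₂ (g a) (algebraMap k0 K1) (algebraMap K1 K) e
      have h11 : eval₂ (algebraMap k0 K1) e (g a) = 0 := h0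
      rw [h11, map_zero, hex'] at h10
      exact hxg a h10.symm
    refine exists_Fn3 (k0 := k0) hc he1 P (fun a j => y (s ⟨a, j⟩)) hF0' h4 hge
      (fun a b I hI => ?_) (fun ξ => ξ.elim) (fun ξ => ξ.elim) fun a => ?_
    · by_cases hab : a = b
      · subst hab
        rw [if_pos rfl, Finset.sum_eq_single (js a I hI), h6, one_mul, hjs, map_mul, aeval_mn]
        · intro j _ hj
          rw [h7' a I hI j hj, zero_mul]
        · intro h; exact absurd (Finset.mem_univ _) h
      · rw [if_neg hab]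
        exact Finset.sum_eq_zero fun j _ => by rw [h7 b a (Ne.symm hab) I hI, zero_mul]
    have hst : IsScalarTower k0 K1 K := IsScalarTower.of_algebraMap_eq fun r => rfl
    refine alg_descend (Ω := K) ?_
    have h11 : algebraMap K1 K '' Set.range e = Set.range x := by
      rw [← Set.range_comp]
      congr 1
    have h12 : algebraMap K1 K (eval e (F0 a)) = eval x (F a) := by
      rw [← hF0, eval_map]
      have := hom_eval₂ (F0 a) (RingHom.id K1) (algebraMap K1 K) e
      rw [eval₂_id] at this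
      rw [this, RingHom.comp_id, hex']
    rw [h11, h12]
    exact hxF a

/-- Finiteness of the points at which generic members of linear systems vanish. -/
theorem sys_fin {k0 K : Type} [Field k0] [Field K] [Algebra k0 K] [IsAlgClosed K]
    [CharZero K] [IsAlgClosed k0] {m : ℕ} {μ : S → ℕ} (hc : ∀ s, β (c s) = s)
    (hd : ∀ s, μ s + m + 2 ≤ ∑ a, (dg a s + 1))
    (V : Set (MvPolynomial σ k0)) (hV : DimB k0 β V m μ)
    {J : A → Type} [∀ a, Fintype (J a)] (P : ∀ a, J a → MvPolynomial σ k0)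
    (g : A → MvPolynomial σ k0)
    (hP : ∀ a, ∀ I ∈ St β c (dg a), SysP β V (P a) (g a * monomial I 1))
    (cf : ∀ a, J a → K) (j0 : ∀ a, J a) (h0 : ∀ a, cf a (j0 a) ≠ 0)
    (hind : AlgebraicIndependent k0 fun p : (Σ a, {j : J a // j ≠ j0 a}) =>
      cf p.1 p.2.1 / cf p.1 (j0 p.1))
    {F : A → MvPolynomial σ K}
    (hF : ∀ a, F a = ∑ j, C (cf a j) * map (algebraMap k0 K) (P a j))
    (T : Finset K) :
    {x : σ → K | (∀ j, x j ∈ IntermediateField.adjoin k0 (T : Set K)) ∧ (∀ s, x (c s) = 1) ∧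
      (∀ f ∈ V, aeval x f = 0) ∧ (∀ a, aeval x (g a) ≠ 0) ∧ ∀ a, eval x (F a) = 0}.Finite := by
  classical
  obtain ⟨K1, _, _, hK1, hc1, τ, hτ⟩ := exists_big K A
  let _ : Algebra k0 K1 := ((algebraMap K K1).comp (algebraMap k0 K)).toAlgebra
  have hst1 : IsScalarTower k0 K K1 := IsScalarTower.of_algebraMap_eq fun _ => rfl
  have hu := Pool.Agent.TH145.GK.indep_scale (k0 := k0) (K' := K1) cf j0 h0 hind hτ
  have hfinSt : ∀ a, Finite (St β c (dg a)) := fun a => finite_st β c (dg a)
  have hfinSt' : ∀ a, Fintype (St β c (dg a)) := fun a => Fintype.ofFinite _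
  obtain ⟨K2, _, _, hK2, hc2, t, ht⟩ := exists_big K1 (Σ a, St β c (dg a))
  let _ : Algebra k0 K2 := ((algebraMap K1 K2).comp (algebraMap k0 K1)).toAlgebra
  have hst2 : IsScalarTower k0 K1 K2 := IsScalarTower.of_algebraMap_eq fun _ => rfl
  choose e he using fun (a : A) (I : St β c (dg a)) => hP a I I.2
  obtain ⟨u, hud⟩ : ∃ u : ∀ a, J a → K1, ∀ a j, u a j =
      τ a / algebraMap K K1 (cf a (j0 a)) * algebraMap K K1 (cf a j) := ⟨_, fun _ _ => rfl⟩
  have hu' : AlgebraicIndependent k0 fun p : (Σ a, J a) => u p.1 p.2 := by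
    have h1 : (fun p : (Σ a, J a) => u p.1 p.2) = fun p : (Σ a, J a) =>
        τ p.1 / algebraMap K K1 (cf p.1 (j0 p.1)) * algebraMap K K1 (cf p.1 p.2) :=
      funext fun p => hud p.1 p.2
    rw [h1]
    exact hu
  have hind' := indep_shift (k0 := k0) (J := J) (I := fun a => St β c (dg a)) (u := u) hu'
    (t := t) ht e
  obtain ⟨cf', hcf'⟩ : ∃ cf' : ∀ a, J a ⊕ St β c (dg a) → K2, ∀ a z, cf' a z =
      Sum.elim (fun j => algebraMap K1 K2 (u a j) -
        ∑ i, t ⟨a, i⟩ * algebraMap k0 K2 (e a i j)) (fun i => t ⟨a, i⟩) z :=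
    ⟨_, fun _ _ => rfl⟩
  obtain ⟨P', hP'⟩ : ∃ P' : ∀ a, J a ⊕ St β c (dg a) → MvPolynomial σ k0, ∀ a z, P' a z =
      Sum.elim (P a) (fun I : St β c (dg a) => g a * monomial I.1 1) z := ⟨_, fun _ _ => rfl⟩
  obtain ⟨G, hG⟩ : ∃ G : A → MvPolynomial σ K2, ∀ a, G a =
    ∑ j, MvPolynomial.C (cf' a j) * map (algebraMap k0 K2) (P' a j) := ⟨_, fun _ => rfl⟩
  have h5 : AlgebraicIndependent k0 (fun p : (Σ a, J a ⊕ St β c (dg a)) => cf' p.1 p.2) := by
    simp only [hcf']
    exact hind'
  obtain ⟨φ, hφ⟩ : ∃ φ : K →+* K2, ∀ z, φ z = algebraMap K1 K2 (algebraMap K K1 z) :=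
    ⟨(algebraMap K1 K2).comp (algebraMap K K1), fun _ => rfl⟩
  obtain ⟨T', hT'⟩ : ∃ T' : Finset K2, T' = T.image φ := ⟨_, rfl⟩
  have h3 := fin_points (k0 := k0) hc hd V hV P' g (fun a I hI => ⟨Sum.inr ⟨I, hI⟩, by
    rw [hP']; rfl⟩) hG h5 T'
  have hφk : φ.comp (algebraMap k0 K) = algebraMap k0 K2 := by
    ext r
    rw [RingHom.comp_apply, hφ]
    rfl
  have hadj : ∀ z ∈ IntermediateField.adjoin k0 (T : Set K),
      φ z ∈ IntermediateField.adjoin k0 (T' : Set K2) := by
    intro z hz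
    have h4 : z ∈ Subfield.closure (Set.range (algebraMap k0 K) ∪ (T : Set K)) := by
      rw [← IntermediateField.adjoin_toSubfield]
      exact hz
    have h6 : Subfield.closure (Set.range (algebraMap k0 K) ∪ (T : Set K)) ≤
        (IntermediateField.adjoin k0 (T' : Set K2)).toSubfield.comap φ := by
      rw [Subfield.closure_le]
      rintro w (⟨r, rfl⟩ | hw)
      · change φ (algebraMap k0 K r) ∈ IntermediateField.adjoin k0 (T' : Set K2)
        rw [← RingHom.comp_apply, hφk]
        exact IntermediateField.algebraMap_mem _ _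
      · refine IntermediateField.subset_adjoin _ _ ?_
        rw [hT', Finset.coe_image]
        exact ⟨w, hw, rfl⟩
    exact h6 h4
  have hev : ∀ (f : MvPolynomial σ k0) (x : σ → K), aeval (fun j => φ (x j)) f =
      φ (aeval x f) := by
    intro f x
    have h6 := hom_eval₂ f (algebraMap k0 K) φ x
    rw [hφk] at h6
    exact h6.symm
  refine Set.Finite.of_finite_image (f := fun x j => φ (x j)) (h3.subset ?_) ?_
  · rintro _ ⟨x, ⟨hx, hxl, hxV, hxg, hxF⟩, rfl⟩
    have hxl' : ∀ s, (fun j => φ (x j)) (c s) = 1 := fun s => by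
      dsimp only
      rw [hxl, map_one]
    have hxV' : ∀ f ∈ V, aeval (fun j => φ (x j)) f = 0 := fun f hf => by
      rw [hev, hxV f hf, map_zero]
    refine ⟨fun j => hadj _ (hx j), hxl', hxV', fun a => ?_, fun a => ?_⟩
    · rw [hev, Ne, map_eq_zero]
      exact hxg a
    have h6 : eval (fun j => φ (x j)) (G a) = 0 := by
      rw [eval_comb (P' a) (cf' a) (hG a), Fintype.sum_sum_type]
      simp only [hcf', hP', Sum.elim_inl, Sum.elim_inr]
      have h7 : ∀ i : St β c (dg a), aeval (fun j => φ (x j)) (g a * monomial i.1 (1 : k0)) =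
          ∑ j, algebraMap k0 K2 (e a i j) * aeval (fun j => φ (x j)) (P a j) := fun i =>
        he a i K2 _ (fun s => ⟨c s, hc s, hxl' s⟩) hxV'
      simp only [h7, sub_mul, Finset.sum_sub_distrib, Finset.sum_mul, Finset.mul_sum]
      have h8 : ∑ j, algebraMap K1 K2 (u a j) * aeval (fun j => φ (x j)) (P a j) = 0 := by
        have h9 := hxF a
        rw [eval_comb (P a) (cf a) (hF a)] at h9
        have h10 := congrArg φ h9
        rw [map_zero, map_sum] at h10
        have h11 : ∀ j, algebraMap K1 K2 (u a j) * aeval (fun j => φ (x j)) (P a j) =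
            algebraMap K1 K2 (τ a / algebraMap K K1 (cf a (j0 a))) *
              φ (cf a j * aeval x (P a j)) := by
          intro j
          rw [hud, map_mul (algebraMap K1 K2), map_mul φ, hev, ← hφ, mul_assoc]
        rw [Finset.sum_congr rfl fun j _ => h11 j, ← Finset.mul_sum, h10, mul_zero]
      rw [h8, zero_sub, neg_add_eq_zero, Finset.sum_comm]
      exact Finset.sum_congr rfl fun i _ => Finset.sum_congr rfl fun j _ => by ring
    rw [h6]
    exact isAlgebraic_zero
  · intro x _ x' _ hxx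
    funext j
    exact φ.injective (congrFun hxx j)

/-- Subvarieties of the zero loci of generic members of linear systems are of general type. -/
theorem sys_gt {k0 K L : Type} [Field k0] [Field K] [Field L] [Algebra k0 K] [Algebra K L]
    [Algebra k0 L] [IsScalarTower k0 K L] [IsAlgClosed K] [CharZero K] {m w : ℕ} {μ : S → ℕ}
    (hc : ∀ s, β (c s) = s)
    (hd : ∀ s, μ s + m + 2 ≤ ∑ a, (dg a s + 1) + w)
    (V : Set (MvPolynomial σ k0)) (hV : DimB k0 β V m μ)
    {J : A → Type} [∀ a, Fintype (J a)] (P : ∀ a, J a → MvPolynomial σ k0)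
    (g : A → MvPolynomial σ k0)
    (hP : ∀ a, ∀ I ∈ St β c (dg a), SysP β V (P a) (g a * monomial I 1))
    (cf : ∀ a, J a → K) (j0 : ∀ a, J a) (h0 : ∀ a, cf a (j0 a) ≠ 0)
    (hind : AlgebraicIndependent k0 fun p : (Σ a, {j : J a // j ≠ j0 a}) =>
      cf p.1 p.2.1 / cf p.1 (j0 p.1))
    {F : A → MvPolynomial σ K}
    (hF : ∀ a, F a = ∑ j, C (cf a j) * map (algebraMap k0 K) (P a j))
    (hw : 0 < w) (htr : Algebra.trdeg K L = w) {x : σ → L} (hx : ∀ s, x (c s) = 1)
    (hgen : Algebra.IsAlgebraic (IntermediateField.adjoin K (Set.range x)) L)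
    (hxV : ∀ f ∈ V, aeval x f = 0) (hxg : ∀ a, aeval x (g a) ≠ 0)
    (hxF : ∀ a, aeval x (F a) = 0) :
    GeneralType K L w := by
  classical
  have hL : CharZero L := charZero_of_injective_algebraMap (algebraMap K L).injective
  refine (Pool.Agent.K6.H80.LV2.gen_core hc hd V hV hw htr hx hgen hxV fun t htb => ?_)
  obtain ⟨D0, hD0S, hD0⟩ := exists_dualsG htb _ hind
  choose! e he using hP
  -- the normalized coefficients
  obtain ⟨cg, hcg⟩ : ∃ cg : ∀ a, J a → K, ∀ a j, cg a j = cf a j / cf a (j0 a) :=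
    ⟨_, fun _ _ => rfl⟩
  have hcg0 : ∀ a, cg a (j0 a) = 1 := fun a => by rw [hcg, div_self (h0 a)]
  obtain ⟨G, hG⟩ : ∃ G : A → MvPolynomial σ L, ∀ a, G a =
    ∑ j, C (algebraMap K L (cg a j)) * map (algebraMap k0 L) (P a j) := ⟨_, fun _ => rfl⟩
  have hGx : ∀ a, ∑ j, algebraMap K L (cg a j) * aeval x (P a j) = 0 := by
    intro a
    have h1 := hxF a
    rw [hF, map_sum] at h1
    have h2 : ∀ j, aeval x (C (cf a j) * map (algebraMap k0 K) (P a j)) =
        algebraMap K L (cf a (j0 a)) * (algebraMap K L (cg a j) * aeval x (P a j)) := by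
      intro j
      rw [map_mul, aeval_C, aeval_map_algebraMap, hcg, map_div₀]
      have h3 : algebraMap K L (cf a (j0 a)) ≠ 0 := by rw [Ne, map_eq_zero]; exact h0 a
      field_simp
    rw [Finset.sum_congr rfl fun j _ => h2 j, ← Finset.mul_sum] at h1
    refine (mul_eq_zero.1 h1).resolve_left ?_
    rw [map_eq_zero]
    exact h0 a
  -- the derivations
  obtain ⟨co, hco⟩ : ∃ co : ∀ a, (σ →₀ ℕ) → J a → L, ∀ a I j, co a I j =
      if I ∈ St β c (dg a) then algebraMap k0 L (e a I j) -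
        algebraMap k0 L (e a I (j0 a)) * algebraMap K L (cg a j) else 0 := ⟨_, fun _ _ _ => rfl⟩
  have hco0 : ∀ a I, co a I (j0 a) = 0 := by
    intro a I
    rw [hco]
    split_ifs
    · rw [hcg0, map_one, mul_one, sub_self]
    · rfl
  obtain ⟨D, hD⟩ : ∃ D : A → (σ →₀ ℕ) → Derivation ℤ L L, ∀ a I f, D a I f =
      ∑ j : {j : J a // j ≠ j0 a}, co a I j * D0 ⟨a, j⟩ f := by
    refine ⟨fun a I => ∑ j : {j : J a // j ≠ j0 a}, co a I j •
      (D0 ⟨a, j⟩).restrictScalars ℤ, fun a I f => ?_⟩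
    rw [← Derivation.coeFnAddMonoidHom_apply, map_sum, Finset.sum_apply]
    rfl
  have hDk : ∀ a I (r : k0), D a I (algebraMap k0 L r) = 0 := by
    intro a I r
    rw [hD]
    exact Finset.sum_eq_zero fun j _ => by rw [(D0 _).map_algebraMap, mul_zero]
  have hDv : ∀ a I b j, D a I (algebraMap K L (cg b j)) = if h : a = b then co b I j else 0 := by
    intro a I b j
    rw [hD]
    by_cases hj : j = j0 b
    · subst hj
      rw [hco0, hcg0, map_one]
      rw [Finset.sum_eq_zero fun j _ => by rw [Derivation.map_one_eq_zero, mul_zero]]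
      split_ifs <;> rfl
    · have h1 : ∀ j' : {j : J a // j ≠ j0 a}, D0 ⟨a, j'⟩ (algebraMap K L (cg b j)) =
          if (⟨a, j'⟩ : (Σ a, {j : J a // j ≠ j0 a})) = ⟨b, ⟨j, hj⟩⟩ then 1 else 0 := by
        intro j'
        rw [hcg]
        exact (hD0 ⟨a, j'⟩ ⟨b, ⟨j, hj⟩⟩).trans (by congr)
      by_cases hab : a = b
      · subst hab
        rw [dif_pos rfl, Finset.sum_eq_single ⟨j, hj⟩]
        · rw [h1, if_pos rfl, mul_one]
        · intro j' _ hj'
          rw [h1, if_neg, mul_zero]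
          intro h
          exact hj' (eq_of_heq (Sigma.mk.inj_iff.1 h).2)
        · intro h; exact absurd (Finset.mem_univ _) h
      · rw [dif_neg hab]
        refine Finset.sum_eq_zero fun j' _ => ?_
        rw [h1, if_neg, mul_zero]
        intro h
        exact hab (congrArg Sigma.fst h)
  have hDS : ∀ a I, Sem K (D a I) := by
    intro a I r
    have h1 : ∀ j : {j : J a // j ≠ j0 a}, ∃ r' : K, co a I j * D0 ⟨a, j⟩ (algebraMap K L r) =
        algebraMap K L r' := by
      intro j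
      obtain ⟨r1, hr1⟩ := hD0S ⟨a, j⟩ r
      have hr1' : D0 ⟨a, j⟩ (algebraMap K L r) = algebraMap K L r1 := hr1
      rw [hr1', hco]
      split_ifs
      · refine ⟨(algebraMap k0 K (e a I j) - algebraMap k0 K (e a I (j0 a)) * cg a j) * r1, ?_⟩
        rw [map_mul, map_sub, map_mul, ← IsScalarTower.algebraMap_apply,
          ← IsScalarTower.algebraMap_apply]
      · exact ⟨0, by rw [zero_mul, map_zero]⟩
    choose r' hr' using h1
    refine ⟨∑ j, r' j, ?_⟩
    rw [hD, map_sum]
    exact Finset.sum_congr rfl fun j _ => hr' j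
  refine ⟨D, hDS, hDk, fun E => ?_⟩
  have hEk : ∀ ξ (r : k0), vE E ξ (algebraMap k0 L r) = 0 := by
    intro i r
    change E i (algebraMap k0 L r) = 0
    rw [IsScalarTower.algebraMap_apply k0 K L]
    exact (E i).map_algebraMap _
  refine exists_Fn3 (k0 := k0) (E := vE E) hc hx P (fun a j => algebraMap K L (cg a j))
    (F := G) hG hDk hxg (fun a b I hI => ?_) hEk (fun ξ b j => (E ξ).map_algebraMap _) (fun a => ?_)
  · by_cases hab : a = b
    · subst hab
      rw [if_pos rfl]
      have h1 : ∀ j, D a I (algebraMap K L (cg a j)) * aeval x (P a j) =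
          algebraMap k0 L (e a I j) * aeval x (P a j) -
            algebraMap k0 L (e a I (j0 a)) * (algebraMap K L (cg a j) * aeval x (P a j)) := by
        intro j
        rw [hDv, dif_pos rfl, hco, if_pos hI]
        ring
      rw [Finset.sum_congr rfl fun j _ => h1 j, Finset.sum_sub_distrib, ← Finset.mul_sum, hGx,
        mul_zero, sub_zero, ← he a I hI L x (fun s => ⟨c s, hc s, hx s⟩) hxV, map_mul, aeval_mn]
    · rw [if_neg hab]
      refine Finset.sum_eq_zero fun j _ => ?_
      rw [hDv, dif_neg (Ne.symm hab), zero_mul]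
  · have h1 : eval x (G a) = 0 := by
      rw [eval_comb (P a) _ (hG a)]
      exact hGx a
    rw [h1]
    exact isAlgebraic_zero

end Pool.Agent.K6.H80.BL
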