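import Pool.Agent.K6.H80.FV.Base
import Pool.Agent.K6.H80.BL.Sys

/-!
The height inequality for generic members of linear systems with base points over function fields.
-/

set_option autoImplicit false
set_option linter.unusedSectionVars false

open MvPolynomial FF Pool.Agent.W603.LV Pool.Agent.W603.PV Pool.Agent.W603.CZ
open Pool.Agent.TH812.GV2 (Loc GoodS exists_duals2 sum_under)
open Pool.Agent.TH812.GV (sum_loss)
open Pool.Agent.TH145.GC (exists_minor)
open Pool.Agent.K6.H80.LV (Ti OK St sM pw up up_le mn mn_pw mn_step pw_mem det_blk sM_up_mem po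
  po_le exists_po exists_sc sc Tan exists_coords der_adjoin bp px px_apply bht po_finite
  hgt_le_bht chain der_coeff DimB Sys finite_st aeval_mn eval_comb)
open Pool.Agent.K6.H80.FV (Fn exists_fn IsMulti IsMulti.comb IsMulti.map Meet ge_eval Full pr
  full_le_tan tan_le rank_le_blk ineq2 gx gx_inl wv_mem_full tangent le_sht sht fg_adjoin Mt)

namespace Pool.Agent.K6.H80.BL

section fn

variable {k0 L : Type} [Field k0] [Field L] [Algebra k0 L] {σ S A T : Type} [Fintype σ]
  [Fintype S] [Fintype T] {β : σ → S} {wT : T → S → ℕ} {c : S → σ} {dg : A → S → ℕ}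

open scoped Classical in
/-- The functionals, for general derivations. -/
theorem exists_Fn4 [CharZero L] (hc : ∀ s, β (c s) = s) {y : σ ⊕ T → L}
    (hx : ∀ s, y (Sum.inl (c s)) = 1) {J : A → Type}
    [∀ a, Fintype (J a)] (P : ∀ a, J a → MvPolynomial σ k0) (cf : ∀ a, J a → L)
    {F : A → MvPolynomial σ L} (hF : ∀ a, F a = ∑ j, C (cf a j) * map (algebraMap k0 L) (P a j))
    {D : A → (σ →₀ ℕ) → Derivation ℤ L L} (hDk : ∀ a I (r : k0), D a I (algebraMap k0 L r) = 0)
    {γ : A → L} (hγ : ∀ a, γ a ≠ 0)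
    (hD : ∀ a b, ∀ I ∈ St β c (dg b), ∑ j, D b I (cf a j) * aeval (y ∘ Sum.inl) (P a j) =
      if a = b then γ a * mn (y ∘ Sum.inl) I else 0)
    (halg : ∀ a, IsAlgebraic (IntermediateField.adjoin k0 (Set.range y))
      (eval (y ∘ Sum.inl) (F a))) :
    ∃ φ : A → σ ⊕ T → L, Fn β wT c dg D y φ := by
  classical
  choose φ hφ1 hφ2 using fun a => exists_fn (k0 := k0) (wT := wT) hc hx (F a) (halg a)
  have hs : ∀ a (f : σ ⊕ T → L), ∑ l, (γ a)⁻¹ * φ a l * f l = (γ a)⁻¹ * ∑ l, φ a l * f l := by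
    intro a f
    rw [Finset.mul_sum]
    exact Finset.sum_congr rfl fun l _ => mul_assoc _ _ _
  refine ⟨fun a l => (γ a)⁻¹ * φ a l, fun a s => ?_, fun a b I hI hab => ?_, fun a I hI => ?_⟩
  · rw [hs, hφ1, mul_zero]
  · have h1 := hφ2 a (D b I) (hDk b I)
    rw [der_coeff (P a) (cf a) (D b I) (hDk b I) _ (hF a), hD a b I hI, if_neg hab,
      neg_zero] at h1
    rw [hs a fun l => D b I (y l), h1, mul_zero]
  · have h1 := hφ2 a (D a I) (hDk a I)
    rw [der_coeff (P a) (cf a) (D a I) (hDk a I) _ (hF a), hD a a I hI, if_pos rfl] at h1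
    rw [hs a fun l => D a I (y l), h1, mul_neg, inv_mul_cancel_left₀ (hγ a)]

end fn

theorem main2 {k0 k R0 F : Type} [Field k0] [Field k] [Field R0] [Field F] [IsAlgClosed k]
    [CharZero k] [Algebra k0 k] [Algebra k F] [Algebra k0 F] [IsScalarTower k0 k F]
    [Algebra k0 R0] [Algebra R0 F] [IsScalarTower k0 R0 F] [IsFF k F]
    (hfg : ∃ S : Finset R0, IntermediateField.adjoin k0 (S : Set R0) = ⊤)
    {σ S A T : Type} [Fintype σ] [Fintype S] [Fintype A] [Fintype T]
    {β : σ → S} {c : S → σ} {dg : A → S → ℕ} (hc : ∀ s, β (c s) = s) {m : ℕ} {μ : S → ℕ}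
    (V : Set (MvPolynomial σ R0)) (hVm : ∀ f ∈ V, ∃ e, IsMulti β e f) (hV : DimB R0 β V m μ)
    (G0 : A → MvPolynomial σ R0) (hG0 : ∀ a, IsMulti β (dg a) (G0 a))
    {J : A → Type} [∀ a, Fintype (J a)] (P : ∀ a, J a → MvPolynomial σ R0)
    (hPm : ∀ a j, IsMulti β (dg a) (P a j))
    {eg : A → S → ℕ} (g : A → MvPolynomial σ R0)
    (hP : ∀ a, ∀ I ∈ St β c (eg a), SysP β V (P a) (g a * monomial I 1))
    (cf : ∀ a, J a → F) (hind : AlgebraicIndependent R0 fun p : (Σ a, J a) => cf p.1 p.2)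
    {Fm : A → MvPolynomial σ F}
    (hF : ∀ a, Fm a = map (algebraMap R0 F) (G0 a) +
      ∑ j, C (cf a j) * map (algebraMap R0 F) (P a j)) (ι : T → A) :
    ∃ C : ℕ, ∀ (L : Type) [Field L] [Algebra k L] [Algebra F L] [Algebra R0 L]
      [IsScalarTower k F L] [IsScalarTower R0 F L] [FiniteDimensional F L] (x : σ → L),
      (∀ s, x (c s) = 1) → (∀ f ∈ V, aeval x f = 0) → (∀ a, aeval x (g a) ≠ 0) →
      (∀ t, aeval x (Fm (ι t)) ≠ 0) →
      (∀ a, IsAlgebraic (IntermediateField.adjoin R0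
        (Set.range x ∪ Set.range fun t => aeval x (Fm (ι t)))) (aeval x (Fm a))) →
      ∃ (r : ℕ) (u : Fin (r + Fintype.card S) → σ → L) (w : S → ℕ), r ≤ m ∧
        LinearIndependent L u ∧ (∀ s, px β x s ∈ Submodule.span L (Set.range u)) ∧
        (∀ i, ∀ f ∈ V, ∑ l, aeval x (pderiv l f) * u i l = 0) ∧
        ∑ s, w s + Fintype.card A ≤ r + Fintype.card T ∧
        ∑ s, ((∑ a, eg a s : ℕ) - w s : ℤ) * bht k β x s + sht k β x u ≤
          (Meet k β dg Fm ι x).ncard + canDeg k L + C * Module.finrank F L ∧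
        ∑ s, ((∑ a, eg a s : ℕ) - w s - μ s - 1 : ℤ) * bht k β x s ≤
          (Meet k β dg Fm ι x).ncard + canDeg k L + C * Module.finrank F L := by
  classical
  have hFz : CharZero F := charZero_of_injective_algebraMap (algebraMap k F).injective
  obtain ⟨D0, hD0g, hD0k, hD0⟩ := exists_duals2 (k0 := k0) (k := k) (F0 := R0) (F := F) hfg
    (fun p : (Σ a, J a) => cf p.1 p.2) hind
  choose! e he using hP
  have hFmm : ∀ a, IsMulti β (dg a) (Fm a) := fun a => by
    refine IsMulti.comb (P := fun j : Option (J a) => j.elim (G0 a) (P a))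
      (c := fun j => j.elim 1 (cf a)) (fun j => ?_) ?_
    · cases j with
      | none => exact hG0 _
      | some j => exact hPm _ j
    · rw [hF, Fintype.sum_option]
      simp only [Option.elim_none, Option.elim_some, map_one, one_mul]
  -- the derivations
  obtain ⟨D, hD⟩ : ∃ D : A → (σ →₀ ℕ) → Derivation ℤ F F, ∀ a I,
      D a I = ∑ j : J a, algebraMap R0 F (e a I j) • D0 ⟨a, j⟩ := ⟨_, fun _ _ => rfl⟩
  have hDa : ∀ a I f, D a I f = ∑ j : J a, algebraMap R0 F (e a I j) * D0 ⟨a, j⟩ f := by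
    intro a I f
    rw [hD, ← Derivation.coeFnAddMonoidHom_apply, map_sum, Finset.sum_apply]
    rfl
  have hgood : ∀ a I, GoodS k (D a I) := by
    intro a I
    rw [hD]
    exact GoodS.sum _ _ fun j _ => (hD0g _).smul _
  have hDk : ∀ a I (r : R0), D a I (algebraMap R0 F r) = 0 := by
    intro a I r
    rw [hDa]
    exact Finset.sum_eq_zero fun j _ => by rw [hD0k, mul_zero]
  have hDv : ∀ a I b j, D a I (cf b j) = if h : a = b then algebraMap R0 F (e b I j) else 0 := by
    intro a I b j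
    rw [hDa]
    by_cases hab : a = b
    · subst hab
      rw [dif_pos rfl, Finset.sum_eq_single j]
      · rw [(hD0 ⟨a, j⟩ ⟨a, j⟩).1 rfl, mul_one]
      · intro j' _ hj'
        rw [(hD0 ⟨a, j'⟩ ⟨a, j⟩).2, mul_zero]
        intro h
        exact hj' (eq_of_heq (Sigma.mk.inj_iff.1 h).2)
      · intro h; exact absurd (Finset.mem_univ _) h
    · rw [dif_neg hab]
      refine Finset.sum_eq_zero fun j' _ => ?_
      rw [(hD0 ⟨a, j'⟩ ⟨b, j⟩).2, mul_zero]
      intro h
      exact hab (congrArg Sigma.fst h)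
  -- the loss
  choose q hq0 hqf hq using hgood
  have hfinI : ∀ a, (St β c (eg a)).Finite := fun a => finite_st β c (eg a)
  obtain ⟨Q, hQ⟩ : ∃ Q : Place k F → ℤ, ∀ v, Q v = ∑ a, ∑ I ∈ (hfinI a).toFinset, q a I v :=
    ⟨_, fun _ => rfl⟩
  have hQ0 : ∀ v, 0 ≤ Q v := fun v => by
    rw [hQ]
    exact Finset.sum_nonneg fun a _ => Finset.sum_nonneg fun I _ => hq0 a I v
  have hQf : {v | Q v ≠ 0}.Finite := by
    have h1 : (⋃ a : A, ⋃ I ∈ (hfinI a).toFinset, {v | q a I v ≠ 0}).Finite :=
      Set.finite_iUnion fun a => (hfinI a).toFinset.finite_toSet.biUnion fun I _ => hqf a I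
    refine h1.subset fun v hv => ?_
    by_contra hcon
    simp only [Set.mem_iUnion, not_exists, Set.mem_ofPred_eq, not_not] at hcon
    apply hv
    rw [hQ]
    exact Finset.sum_eq_zero fun a _ => Finset.sum_eq_zero fun I hI => hcon a I hI
  have hQle : ∀ a, ∀ I ∈ St β c (eg a), ∀ v, q a I v ≤ Q v := by
    intro a I hI v
    rw [hQ]
    refine le_trans ?_ (Finset.single_le_sum (f := fun a => ∑ I ∈ (hfinI a).toFinset, q a I v)
      (fun a _ => Finset.sum_nonneg fun I _ => hq0 a I v) (Finset.mem_univ a))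
    exact Finset.single_le_sum (f := fun I => q a I v) (fun I _ => hq0 a I v)
      (by rw [Set.Finite.mem_toFinset]; exact hI)
  obtain ⟨C1, hC1⟩ := sum_loss (k := k) hQ0 hQf
  obtain ⟨C3, hC3⟩ := sum_under (k := k) hQ0 hQf
  -- the places at which the coefficients are not integral
  choose S0 hS0 using fun t => exists_supp (k := k) (Fm (ι t)).support fun u => (Fm (ι t)).coeff u
  obtain ⟨S1, hS1⟩ : ∃ S1 : Finset (Place k F), S1 = Finset.univ.biUnion S0 := ⟨_, rfl⟩
  have hS1c : ∀ t u v, v ∉ S1 → Ge v 0 ((Fm (ι t)).coeff u) := by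
    intro t u v hv
    by_cases hu : u ∈ (Fm (ι t)).support
    · right
      have h1 : v.ord ((Fm (ι t)).coeff u) = 0 := by
        by_contra h
        apply hv
        rw [hS1]
        exact Finset.mem_biUnion.2 ⟨t, Finset.mem_univ _, hS0 t u hu v h⟩
      rw [h1]
    · exact Or.inl (notMem_support_iff.1 hu)
  obtain ⟨C2, hC2⟩ : ∃ C2 : ℕ, (C2 : ℤ) = ∑ v ∈ S1, hgt k (unif v) :=
    ⟨(∑ v ∈ S1, hgt k (unif v)).toNat, Int.toNat_of_nonneg
      (Finset.sum_nonneg fun _ _ => hgt_nonneg _)⟩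
  refine ⟨C2 + C1 + (m + Fintype.card S + Fintype.card T) * C3, ?_⟩
  intro L _ _ _ _ _ _ _ x hx hxV hxg hxT hxA
  have hL : IsFF k L := isFF_of_finite (F := F)
  have hLz : CharZero L := charZero_of_injective_algebraMap (algebraMap k L).injective
  choose D' hD' hDl using fun a I => hq a I L
  obtain ⟨hqfin, hqsum⟩ := hC1 L
  obtain ⟨hufin, husum⟩ := hC3 L
  obtain ⟨el, hel⟩ : ∃ el : Place k L → ℤ, ∀ P, el P =
    ((ram F P : ℤ) - 1) + ram F P * Q (under F P) := ⟨_, fun _ => rfl⟩
  obtain ⟨ql, hql⟩ : ∃ ql : Place k L → ℤ, ∀ P, ql P = ram F P * Q (under F P) :=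
    ⟨_, fun _ => rfl⟩
  have hql0 : ∀ P, 0 ≤ ql P := fun P => by
    rw [hql]
    exact mul_nonneg (by positivity) (hQ0 _)
  have hel0 : ∀ P, 0 ≤ el P := fun P => by
    rw [hel]
    have h1 := (ram_spec (F := F) P).1
    have h2 := hql0 P
    rw [hql] at h2
    omega
  have hdir : ∀ P : Place k L, ∀ a, ∀ I ∈ St β c (eg a), Ge P (-el P) (D' a I (unif P)) := by
    intro P a I hI
    rw [hel]
    refine (hDl a I P).1.mono ?_
    have h1 := hQle a I hI (under F P)
    have h2 : (0 : ℤ) ≤ ram F P := by positivity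
    nlinarith
  have hloss : ∀ (P : Place k L) δ, Loc P δ → ∀ a, ∀ I ∈ St β c (eg a), ∀ g f, Ge P g f →
      Ge P (g - ql P) (D' a I f - D' a I (unif P) * δ f) := by
    intro P δ hδ a I hI g f hf
    rw [hql]
    refine ((hDl a I P).2 δ hδ g f hf).mono ?_
    have h1 := hQle a I hI (under F P)
    have h2 : (0 : ℤ) ≤ ram F P := by positivity
    nlinarith
  have hDk' : ∀ a I (r : R0), D' a I (algebraMap R0 L r) = 0 := by
    intro a I r
    rw [IsScalarTower.algebraMap_apply R0 F L, hD', hDk, map_zero]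
  -- the point
  obtain ⟨y, hy⟩ : ∃ y : σ ⊕ T → L, y = Sum.elim x fun t => aeval x (Fm (ι t)) := ⟨_, rfl⟩
  have hyx : y ∘ Sum.inl = x := by rw [hy]; rfl
  have hyl : ∀ l, y (Sum.inl l) = x l := fun l => by rw [hy]; rfl
  have hyr : ∀ t, y (Sum.inr t) = aeval x (Fm (ι t)) := fun t => by rw [hy]; rfl
  have hyrange : Set.range y = Set.range x ∪ Set.range fun t => aeval x (Fm (ι t)) := by
    rw [hy, Set.Sum.elim_range]
  obtain ⟨Fl, hFl⟩ : ∃ Fl : A → MvPolynomial σ L, ∀ a, Fl a = map (algebraMap F L) (Fm a) :=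
    ⟨_, fun _ => rfl⟩
  have hFlx : ∀ a, eval x (Fl a) = aeval x (Fm a) := fun a => by
    rw [hFl, eval_map, aeval_def]
  -- the fixed part
  obtain ⟨P', hP'⟩ : ∃ P' : ∀ a, Option (J a) → MvPolynomial σ R0, ∀ a j, P' a j =
    j.elim (G0 a) (P a) := ⟨_, fun _ _ => rfl⟩
  obtain ⟨cf', hcf'⟩ : ∃ cf' : ∀ a, Option (J a) → L, ∀ a j, cf' a j =
    j.elim 1 (fun j => algebraMap F L (cf a j)) := ⟨_, fun _ _ => rfl⟩
  have hFlc : ∀ a, Fl a = ∑ j, C (cf' a j) * map (algebraMap R0 L) (P' a j) := by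
    intro a
    rw [hFl, hF, map_add, map_sum, Fintype.sum_option, hcf', hP', map_map,
      ← IsScalarTower.algebraMap_eq]
    simp only [Option.elim_none, map_one, one_mul]
    congr 1
    refine Finset.sum_congr rfl fun j _ => ?_
    rw [map_mul, map_C, map_map, ← IsScalarTower.algebraMap_eq, hcf', hP']
    rfl
  obtain ⟨φ, hφ⟩ := exists_Fn4 (k0 := R0) (wT := fun t => dg (ι t)) (dg := eg) hc (y := y)
    (fun s => by rw [hyl]; exact hx s) P' cf' hFlc hDk' hxg
    (fun a b I hI => by
      rw [hyx, Fintype.sum_option]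
      simp only [hcf', hP', Option.elim_none, Option.elim_some]
      rw [Derivation.map_one_eq_zero, zero_mul, zero_add]
      have h1 : ∀ j, D' b I (algebraMap F L (cf a j)) =
          if h : b = a then algebraMap R0 L (e a I j) else 0 := fun j => by
        rw [hD', hDv]
        split_ifs
        · rw [← IsScalarTower.algebraMap_apply]
        · rw [map_zero]
      simp only [h1]
      by_cases hab : b = a
      · subst hab
        rw [if_pos rfl, ← aeval_mn (k' := R0), ← map_mul,
          he b I hI L x (fun s => ⟨c s, hc s, hx s⟩) hxV]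
        exact Finset.sum_congr rfl fun j _ => by rw [dif_pos rfl]
      · rw [if_neg (Ne.symm hab)]
        exact Finset.sum_eq_zero fun j _ => by rw [dif_neg hab, zero_mul])
    (fun a => by
      rw [hyx, hyrange, hFlx]
      exact hxA a)
  obtain ⟨htr, htrb⟩ := hV L x (fun s => ⟨c s, hc s, hx s⟩) hxV
  have htan : (Full β (fun t => dg (ι t)) c eg D' y).map (pr L σ T) ≤ Tan R0 β x := by
    have h1 := full_le_tan (k0 := R0) (β := β) (wT := fun t => dg (ι t)) (c := c) (dg := eg)
      hDk' y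
    rwa [hyx] at h1
  have hrk : Module.finrank L ((Full β (fun t => dg (ι t)) c eg D' y).map (pr L σ T)) ≤
      m + Fintype.card S :=
    (Submodule.finrank_mono htan).trans (tan_le (k0 := R0) hc hx htr)
  have hrkb := fun s => rank_le_blk (k0 := R0) (wT := fun t => dg (ι t)) (dg := eg) hc hDk'
    (y := y) (fun s => by rw [hyl]; exact hx s) s (m := μ s) (by rw [hyx]; exact htrb s)
  have hef : {P | el P ≠ 0}.Finite := by simp only [hel]; exact hqfin
  have hqf' : {P | ql P ≠ 0}.Finite := by simp only [hql]; exact hufin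
  obtain ⟨ρ, u, w, hu, huW, hw, key⟩ := ineq2 (k := k) hc (y := y) (wT := fun t => dg (ι t))
    (dg := eg) (fun s => by rw [hyl]; exact hx s) (fun t => by rw [hyr]; exact hxT t) hφ
    hql0 hel0 hqf' hef hdir hloss
  rw [hyx] at key
  simp only [hyr] at key
  have hpx : ∀ s, px β x s ∈ Submodule.span L (Set.range u) := by
    intro s
    rw [huW]
    refine ⟨gx β (fun t => dg (ι t)) y s, wv_mem_full y (Sum.inl s), ?_⟩
    funext l
    change gx β (fun t => dg (ι t)) y s (Sum.inl l) = _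
    rw [gx_inl, px_apply, hyl]
  have hρ : ρ ≤ m + Fintype.card S := by
    rw [← huW, finrank_span_eq_card hu, Fintype.card_fin] at hrk
    exact hrk
  have hSρ : Fintype.card S ≤ ρ := by
    have h1 : LinearIndependent L fun s => px β x s := by
      rw [Fintype.linearIndependent_iff]
      intro g hg s
      have h2 := congrFun hg (c s)
      rw [Finset.sum_apply] at h2
      simp only [Pi.smul_apply, smul_eq_mul, Pi.zero_apply] at h2
      rw [Pool.Agent.K6.H80.LV.sum_px, hc, hx, mul_one] at h2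
      exact h2
    have h2 := finrank_span_eq_card h1
    have h3 : Submodule.span L (Set.range fun s => px β x s) ≤ Submodule.span L (Set.range u) := by
      rw [Submodule.span_le]
      rintro _ ⟨s, rfl⟩
      exact hpx s
    have h4 := Submodule.finrank_mono h3
    rw [h2, finrank_span_eq_card hu, Fintype.card_fin] at h4
    exact h4
  obtain ⟨r, rfl⟩ : ∃ r, ρ = r + Fintype.card S := ⟨ρ - Fintype.card S, by omega⟩
  have hutan : ∀ i, ∀ f ∈ V, ∑ l, aeval x (pderiv l f) * u i l = 0 := by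
    intro i f hf
    obtain ⟨e, he⟩ := hVm f hf
    refine tangent (k0 := R0) (β := β) (htan ?_) he (hxV f hf)
    rw [← huW]
    exact Submodule.subset_span ⟨i, rfl⟩
  have hsht := le_sht (k := k) hx hc hu (μ := μ) fun s => by rw [huW]; exact hrkb s
  suffices hsuff : ∑ s, ((∑ a, eg a s : ℕ) - w s : ℤ) * bht k β x s + sht k β x u ≤
      (Meet k β dg Fm ι x).ncard + canDeg k L +
        (C2 + C1 + (m + Fintype.card S + Fintype.card T) * C3 : ℕ) * Module.finrank F L by
    refine ⟨r, u, w, by omega, hu, hpx, hutan, by omega, hsuff, ?_⟩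
    have h1 : ∑ s, ((∑ a, eg a s : ℕ) - w s - μ s - 1 : ℤ) * bht k β x s =
        ∑ s, ((∑ a, eg a s : ℕ) - w s : ℤ) * bht k β x s +
          (- ∑ s, ((μ s : ℤ) + 1) * bht k β x s) := by
      rw [← sub_eq_add_neg, ← Finset.sum_sub_distrib]
      exact Finset.sum_congr rfl fun s _ => by ring
    rw [h1]
    linarith
  refine key.trans ?_
  -- the counting function
  obtain ⟨cnt, hcnt⟩ : ∃ cnt : Place k L → ℤ, ∀ P, cnt P = if ∃ t, P.ord (aeval x (Fm (ι t))) ≠
    ∑ s, (dg (ι t) s : ℤ) * po β P x s then 1 else 0 := ⟨_, fun _ => rfl⟩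
  simp only [← hcnt]
  obtain ⟨Mt, hMt⟩ : ∃ Mt : Set (Place k L), Mt = Meet k β dg Fm ι x := ⟨_, rfl⟩
  have hpf : ∀ s, {P : Place k L | po β P x s ≠ 0}.Finite := fun s =>
    po_finite (by rw [hx]; exact one_ne_zero) (hc s)
  have hMfin : Mt.Finite := by
    obtain ⟨U, hU⟩ := exists_supp (k := k) (Finset.univ : Finset T) fun t => aeval x (Fm (ι t))
    refine (U.finite_toSet.union (Set.finite_iUnion hpf)).subset fun P hP => ?_
    by_contra hcon
    simp only [Set.mem_union, Set.mem_iUnion, Set.mem_ofPred_eq, not_or, not_exists, not_not,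
      Finset.mem_coe] at hcon
    obtain ⟨h1, h2⟩ := hcon
    rw [hMt] at hP
    obtain ⟨t, ht⟩ := hP
    rw [Finset.sum_eq_zero fun s _ => by rw [h2, mul_zero]] at ht
    exact h1 (hU t (Finset.mem_univ _) P ht.ne')
  have hBfin : {P : Place k L | under F P ∈ S1}.Finite := finite_over_set (Finset.finite_toSet S1)
  have hcle : ∀ P, cnt P ≤ 1 := by
    intro P
    rw [hcnt]
    split_ifs <;> norm_num
  have hcsupp : ∀ P, cnt P ≠ 0 → P ∈ Mt ∪ {P : Place k L | under F P ∈ S1} := by
    intro P hP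
    rw [hcnt] at hP
    obtain ⟨t, ht⟩ : ∃ t, P.ord (aeval x (Fm (ι t))) ≠
        ∑ s, (dg (ι t) s : ℤ) * po β P x s := by
      by_contra h
      rw [if_neg h] at hP
      exact hP rfl
    by_cases hu : under F P ∈ S1
    · exact Or.inr hu
    · left
      rw [hMt]
      refine ⟨t, lt_of_le_of_ne ?_ ht.symm⟩
      have hmul : IsMulti β (dg (ι t)) (Fl (ι t)) := by
        rw [hFl]
        exact (hFmm (ι t)).map _
      have h1 := ge_eval hmul P (fun I => by
        rw [hFl, coeff_map]
        rcases hS1c t I (under F P) hu with h | h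
        · left; rw [h, map_zero]
        · right
          rw [ord_under]
          exact mul_nonneg (by positivity) h) x
      rw [hFlx] at h1
      exact h1.resolve_left (hxT t)
  have hcfin : {P | cnt P ≠ 0}.Finite := (hMfin.union hBfin).subset hcsupp
  have hcsum : ∑ᶠ P, cnt P ≤ Mt.ncard + Module.finrank F L * C2 := by
    have h1 := Pool.Agent.TH812.GV.finsum_le_card (hMfin.union hBfin) (M := 1) hcle hcsupp
    have h2 : (((Mt ∪ {P : Place k L | under F P ∈ S1}).ncard : ℕ) : ℤ) ≤
        Mt.ncard + Module.finrank F L * C2 := by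
      have h3 := Set.ncard_union_le Mt {P : Place k L | under F P ∈ S1}
      have h4 := card_over_le (L := L) S1
      rw [← hC2] at h4
      have h5 : (((Mt ∪ {P : Place k L | under F P ∈ S1}).ncard : ℕ) : ℤ) ≤
        (Mt.ncard : ℤ) + ({P : Place k L | under F P ∈ S1}.ncard : ℕ) := by exact_mod_cast h3
      linarith
    rw [one_mul] at h1
    exact h1.trans h2
  obtain ⟨B, hBd⟩ : ∃ B : ℤ, B = (r + Fintype.card S + Fintype.card T : ℕ) := ⟨_, rfl⟩
  have hB0 : 0 ≤ B := by rw [hBd]; positivity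
  have hBle : B ≤ m + Fintype.card S + Fintype.card T := by
    rw [hBd]
    exact_mod_cast (by omega)
  simp only [← hBd]
  have hfq' : {P | B * ql P ≠ 0}.Finite := hqf'.subset fun P hP => right_ne_zero_of_mul hP
  have hfs : ∑ᶠ P : Place k L, (cnt P + (el P + B * ql P)) =
      ∑ᶠ P, cnt P + (∑ᶠ P, el P + B * ∑ᶠ P, ql P) := by
    rw [finsum_add_distrib hcfin ((hef.union hfq').subset fun P hP => by
      by_contra hcon
      simp only [Set.mem_union, Set.mem_ofPred_eq, not_or, not_not] at hcon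
      apply hP
      dsimp only
      rw [hcon.1, hcon.2, add_zero]), finsum_add_distrib hef hfq', ← mul_finsum]
  rw [hfs]
  have hes : ∑ᶠ P, el P ≤ canDeg k L + C1 * Module.finrank F L := by
    have h1 : el = fun P => ((ram F P : ℤ) - 1) + ram F P * Q (under F P) := funext hel
    rw [h1]
    exact hqsum
  have hqs : ∑ᶠ P, ql P ≤ C3 * Module.finrank F L := by
    have h1 : ql = fun P => (ram F P : ℤ) * Q (under F P) := funext hql
    rw [h1]
    exact husum
  have h10 : B * ∑ᶠ P, ql P ≤ (m + Fintype.card S + Fintype.card T) *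
      (C3 * Module.finrank F L) :=
    (mul_le_mul_of_nonneg_left hqs hB0).trans (mul_le_mul_of_nonneg_right hBle (by positivity))
  rw [← hMt]
  have hcast : ((C2 + C1 + (m + Fintype.card S + Fintype.card T) * C3 : ℕ) : ℤ) =
      C2 + C1 + (m + Fintype.card S + Fintype.card T) * C3 := by
    push_cast
    ring
  rw [hcast]
  have hfinal : (Mt.ncard + Module.finrank F L * C2 : ℤ) + (canDeg k L + C1 * Module.finrank F L +
      (m + Fintype.card S + Fintype.card T) * (C3 * Module.finrank F L)) =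
      Mt.ncard + canDeg k L + (C2 + C1 + (m + Fintype.card S + Fintype.card T) * C3) *
        Module.finrank F L := by
    ring
  rw [← hfinal]
  exact add_le_add hcsum (add_le_add hes h10)

/-- The monomials over a larger field. -/
theorem SysP.base {k1 k2 σ S J : Type} [Field k1] [Field k2] [Algebra k1 k2] [Fintype σ]
    [Fintype J] {β : σ → S} {V : Set (MvPolynomial σ k1)} {P : J → MvPolynomial σ k1}
    {f : MvPolynomial σ k1} (h : SysP β V P f) :
    SysP β (map (algebraMap k1 k2) '' V) (fun j => map (algebraMap k1 k2) (P j))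
      (map (algebraMap k1 k2) f) := by
  obtain ⟨e, he⟩ := h
  refine ⟨fun j => algebraMap k1 k2 (e j), fun Ω _ _ x hx hxV => ?_⟩
  let _ : Algebra k1 Ω := ((algebraMap k2 Ω).comp (algebraMap k1 k2)).toAlgebra
  have hst : IsScalarTower k1 k2 Ω := IsScalarTower.of_algebraMap_eq fun _ => rfl
  have h1 := he Ω x hx fun f hf => by
    have h3 := hxV _ ⟨f, hf, rfl⟩
    rwa [aeval_map_algebraMap] at h3
  rw [aeval_map_algebraMap, h1]
  refine Finset.sum_congr rfl fun j _ => ?_
  rw [aeval_map_algebraMap, ← IsScalarTower.algebraMap_apply]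

section

variable {k0 k F0 F : Type} [Field k0] [Field k] [Field F0] [Field F] [IsAlgClosed k]
    [CharZero k] [Algebra k0 k] [Algebra k F] [Algebra k0 F] [IsScalarTower k0 k F]
    [Algebra k0 F0] [Algebra F0 F] [IsScalarTower k0 F0 F] [IsFF k F]
    {σ S A : Type} [Fintype σ] [Fintype S] [Fintype A] {β : σ → S} {dg eg : A → S → ℕ}
    {m : ℕ} {μ : S → ℕ}

/-- The conclusion. -/
def Concl (k : Type) {F0 F L σ S A : Type} [Field k] [Field F0] [Field F] [Field L] [Algebra k L]
    [Algebra F0 L] [Algebra F L] [Fintype σ] [Fintype S] (β : σ → S) (dg eg : A → S → ℕ)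
    (Fm : A → MvPolynomial σ F) (V : Set (MvPolynomial σ F0)) (m : ℕ) (μ : S → ℕ)
    (B T : Finset A) (C : ℕ) (x : σ → L) : Prop :=
  ∃ (r : ℕ) (u : Fin (r + Fintype.card S) → σ → L) (w : S → ℕ), r ≤ m ∧
    LinearIndependent L u ∧ (∀ s, px β x s ∈ Submodule.span L (Set.range u)) ∧
    (∀ i, ∀ f ∈ V, ∑ l, aeval x (pderiv l f) * u i l = 0) ∧
    ∑ s, w s + B.card ≤ r ∧
    ∑ s, ((∑ a ∈ B, eg a s : ℕ) + (∑ a ∈ T, eg a s : ℕ) - w s : ℤ) * bht k β x s +
      sht k β x u ≤ (Mt k β dg Fm T x).ncard + canDeg k L + C * Module.finrank F L ∧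
    ∑ s, ((∑ a ∈ B, eg a s : ℕ) + (∑ a ∈ T, eg a s : ℕ) - w s - μ s - 1 : ℤ) * bht k β x s ≤
      (Mt k β dg Fm T x).ncard + canDeg k L + C * Module.finrank F L

/-- The inequality for given sets of indices, in a chart. -/
theorem chart (hfg : ∃ S : Finset F0, IntermediateField.adjoin k0 (S : Set F0) = ⊤)
    {c : S → σ} (hc : ∀ s, β (c s) = s)
    (V : Set (MvPolynomial σ F0)) (hVm : ∀ f ∈ V, ∃ e, IsMulti β e f) (hV : DimB F0 β V m μ)
    (G0 : A → MvPolynomial σ F0) (hG0 : ∀ a, IsMulti β (dg a) (G0 a))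
    {J : A → Type} [∀ a, Fintype (J a)] (P : ∀ a, J a → MvPolynomial σ F0)
    (hPm : ∀ a j, IsMulti β (dg a) (P a j))
    (g : A → MvPolynomial σ F0)
    (cf : ∀ a, J a → F) (hind : AlgebraicIndependent F0 fun p : (Σ a, J a) => cf p.1 p.2)
    {Fm : A → MvPolynomial σ F}
    (hF : ∀ a, Fm a = map (algebraMap F0 F) (G0 a) +
      ∑ j, C (cf a j) * map (algebraMap F0 F) (P a j)) (B T : Finset A) (hBT : Disjoint B T)
    (hP : ∀ a, (a ∈ B ∨ a ∈ T) → ∀ I ∈ St β c (eg a), SysP β V (P a) (g a * monomial I 1)) :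
    ∃ C : ℕ, ∀ (L : Type) [Field L] [Algebra k L] [Algebra F L] [Algebra F0 L]
      [IsScalarTower k F L] [IsScalarTower F0 F L] [FiniteDimensional F L] (x : σ → L),
      (∀ s, x (c s) = 1) → (∀ f ∈ V, aeval x f = 0) → (∀ a, (a ∈ B ∨ a ∈ T) → aeval x (g a) ≠ 0) →
      (∀ t ∈ T, aeval x (Fm t) ≠ 0) →
      (∀ b ∈ B, IsAlgebraic (IntermediateField.adjoin F0
        (Set.range x ∪ (fun a => aeval x (Fm a)) '' {a | a ∉ B})) (aeval x (Fm b))) →
      Concl k β dg eg Fm V m μ B T C x := by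
  classical
  obtain ⟨U, hU⟩ : ∃ U : Set F, U = (fun p : (Σ a, J a) => cf p.1 p.2) '' {p | p.1 ∈ B ∪ T}ᶜ :=
    ⟨_, rfl⟩
  have hUf : U.Finite := by rw [hU]; exact (Set.toFinite _).image _
  have hfg' := fg_adjoin (k0 := k0) hfg hUf
  have hst0 : IsScalarTower k0 (IntermediateField.adjoin F0 U) F :=
    IsScalarTower.of_algebraMap_eq fun _ => rfl
  have hind' : AlgebraicIndependent (IntermediateField.adjoin F0 U)
      fun p : (Σ a : {a // a ∈ B ∪ T}, J a) => cf p.1 p.2 := by
    have h1 := (AlgebraicIndependent.iff_adjoin_image_compl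
      (x := fun p : (Σ a, J a) => cf p.1 p.2) {p | p.1 ∈ B ∪ T}).1 hind
    have h2 := h1.2
    rw [← hU] at h2
    have h3 : AlgebraicIndependent (IntermediateField.adjoin F0 U)
        (fun p : {p : (Σ a, J a) // p.1 ∈ B ∪ T} => cf p.1.1 p.1.2) :=
      IntermediateField.algebraicIndependent_adjoin_iff.2 h2
    exact h3.comp (fun p : (Σ a : {a // a ∈ B ∪ T}, J a) =>
      (⟨⟨p.1.1, p.2⟩, p.1.2⟩ : {p : (Σ a, J a) // p.1 ∈ B ∪ T})) (by
        rintro ⟨⟨a, ha⟩, j⟩ ⟨⟨a', ha'⟩, j'⟩ h
        have h6 := congrArg Subtype.val h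
        obtain rfl : a = a' := congrArg Sigma.fst h6
        obtain rfl : j = j' := eq_of_heq (Sigma.mk.inj_iff.1 h6).2
        rfl)
  have hcfU : ∀ a, a ∉ B ∪ T → ∀ j, cf a j ∈ IntermediateField.adjoin F0 U := by
    intro a ha j
    refine IntermediateField.subset_adjoin _ _ ?_
    rw [hU]
    exact ⟨⟨a, j⟩, ha, rfl⟩
  obtain ⟨C0, hC0⟩ := main2 (k0 := k0) (k := k) (R0 := IntermediateField.adjoin F0 U) (F := F)
    hfg' (A := {a // a ∈ B ∪ T}) (T := {a // a ∈ T}) (β := β) (c := c) (dg := fun a => dg a)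
    hc (m := m) (μ := μ) (map (algebraMap F0 (IntermediateField.adjoin F0 U)) '' V)
    (by
      rintro _ ⟨f, hf, rfl⟩
      obtain ⟨e, he⟩ := hVm f hf
      exact ⟨e, he.map _⟩) hV.base
    (fun a => map (algebraMap F0 (IntermediateField.adjoin F0 U)) (G0 a))
    (fun a => (hG0 a).map _) (J := fun a => J a)
    (fun a j => map (algebraMap F0 (IntermediateField.adjoin F0 U)) (P a j))
    (fun a j => (hPm a j).map _) (eg := fun a => eg a)
    (fun a => map (algebraMap F0 (IntermediateField.adjoin F0 U)) (g a)) (fun a I hI => by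
      have h1 := SysP.base (k2 := IntermediateField.adjoin F0 U) (hP a (Finset.mem_union.1 a.2) I hI)
      rwa [map_mul, MvPolynomial.map_monomial, map_one] at h1) (fun a j => cf a j) hind'
    (Fm := fun a => Fm a) (fun a => by
      rw [hF, map_map, ← IsScalarTower.algebraMap_eq]
      congr 1
      refine Finset.sum_congr rfl fun j _ => ?_
      rw [map_map, ← IsScalarTower.algebraMap_eq])
    (fun t => ⟨t.1, Finset.mem_union_right _ t.2⟩)
  refine ⟨C0, ?_⟩
  intro L _ _ _ _ _ _ _ x hx hxV hxg hxT hxB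
  obtain ⟨R0, hR0⟩ : ∃ R0, R0 = IntermediateField.adjoin F0 U := ⟨_, rfl⟩
  have hst1 : IsScalarTower (IntermediateField.adjoin F0 U) F L := inferInstance
  have hst2 : IsScalarTower F0 (IntermediateField.adjoin F0 U) L :=
    IsScalarTower.of_algebraMap_eq fun r => by
      rw [IsScalarTower.algebraMap_apply F0 F L]
      rfl
  have hval : ∀ a, a ∉ B ∪ T → aeval x (Fm a) ∈
      IntermediateField.adjoin (IntermediateField.adjoin F0 U) (Set.range x) := by
    intro a ha
    have h1 : ∀ f : MvPolynomial σ F0, aeval x (map (algebraMap F0 F) f) ∈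
        IntermediateField.adjoin (IntermediateField.adjoin F0 U) (Set.range x) := by
      intro f
      have h2 : aeval x (map (algebraMap F0 F) f) =
          aeval x (map (algebraMap F0 (IntermediateField.adjoin F0 U)) f) := by
        rw [aeval_map_algebraMap, aeval_map_algebraMap]
      rw [h2]
      have h3 : aeval x (map (algebraMap F0 (IntermediateField.adjoin F0 U)) f) ∈
          Algebra.adjoin (IntermediateField.adjoin F0 U) (Set.range x) := by
        rw [Algebra.adjoin_range_eq_range_aeval]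
        exact ⟨_, rfl⟩
      exact IntermediateField.algebra_adjoin_le_adjoin _ _ h3
    rw [hF, map_add, map_sum]
    refine add_mem (h1 _) (sum_mem fun j _ => ?_)
    rw [map_mul, aeval_C]
    refine mul_mem ?_ (h1 _)
    exact IntermediateField.algebraMap_mem _ (⟨cf a j, hcfU a ha j⟩ : IntermediateField.adjoin F0 U)
  obtain ⟨r, u, w, hr, hu, hpx, htan, hw, h1, h2⟩ := hC0 L x hx (by
      rintro _ ⟨f, hf, rfl⟩
      rw [aeval_map_algebraMap]
      exact hxV f hf) (fun a => by
        rw [aeval_map_algebraMap]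
        exact hxg a (Finset.mem_union.1 a.2)) (fun t => hxT t t.2) (by
      rintro ⟨a, ha⟩
      rcases Finset.mem_union.1 ha with hb | ht
      · refine Pool.Agent.TH145.MF.alg_mono
          (F1 := (IntermediateField.adjoin F0
            (Set.range x ∪ (fun a => aeval x (Fm a)) '' {a | a ∉ B})).toSubfield)
          (F2 := (IntermediateField.adjoin (IntermediateField.adjoin F0 U)
            (Set.range x ∪ Set.range fun t : {t // t ∈ T} => aeval x (Fm t))).toSubfield) ?_
          (hxB a hb)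
        rw [IntermediateField.adjoin_toSubfield, Subfield.closure_le]
        rintro z (⟨r, rfl⟩ | (hz | ⟨a', ha', rfl⟩))
        · rw [IsScalarTower.algebraMap_apply F0 (IntermediateField.adjoin F0 U) L]
          exact IntermediateField.algebraMap_mem _ _
        · exact IntermediateField.subset_adjoin _ _ (Or.inl hz)
        · by_cases hT : a' ∈ T
          · exact IntermediateField.subset_adjoin _ _ (Or.inr ⟨⟨a', hT⟩, rfl⟩)
          · have h3 := hval a' fun h => by
              rcases Finset.mem_union.1 h with h | h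
              · exact ha' h
              · exact hT h
            exact IntermediateField.adjoin.mono _ _ _ Set.subset_union_left h3
      · exact isAlgebraic_algebraMap (⟨_, IntermediateField.subset_adjoin _ _
          (Or.inr ⟨⟨a, ht⟩, rfl⟩)⟩ : IntermediateField.adjoin (IntermediateField.adjoin F0 U)
            (Set.range x ∪ Set.range fun t : {t // t ∈ T} => aeval x (Fm t))))
  have hMeet : Meet k (A := {a // a ∈ B ∪ T}) β (fun a => dg a) (fun a => Fm a)
      (fun t : {a // a ∈ T} => ⟨t.1, Finset.mem_union_right _ t.2⟩) x = Mt k β dg Fm T x := by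
    ext P
    constructor
    · rintro ⟨t, ht⟩
      exact ⟨t.1, t.2, ht⟩
    · rintro ⟨t, htT, ht⟩
      exact ⟨⟨t, htT⟩, ht⟩
  have hcard : Fintype.card {a // a ∈ B ∪ T} = B.card + T.card := by
    rw [Fintype.card_coe, Finset.card_union_of_disjoint hBT]
  have hsum : ∀ s, ∑ a : {a // a ∈ B ∪ T}, eg a s = ∑ a ∈ B, eg a s + ∑ a ∈ T, eg a s := by
    intro s
    rw [Finset.sum_coe_sort (B ∪ T) (fun a => eg a s), Finset.sum_union hBT]
  rw [hMeet] at h1 h2
  simp only [hsum] at h1 h2
  push_cast at h1 h2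
  rw [hcard, Fintype.card_coe] at hw
  refine ⟨r, u, w, hr, hu, hpx, fun i f hf => ?_, by omega, ?_, ?_⟩
  · have h3 := htan i _ ⟨f, hf, rfl⟩
    rw [← h3]
    refine Finset.sum_congr rfl fun l _ => ?_
    rw [pderiv_map, aeval_map_algebraMap]
  · push_cast
    exact h1
  · push_cast
    exact h2

theorem Concl.mono {L : Type} [Field L] [Algebra k L] [Algebra F0 L] [Algebra F L]
    {Fm : A → MvPolynomial σ F} {V : Set (MvPolynomial σ F0)} {B T : Finset A} {C C' : ℕ}
    {x : σ → L} (h : Concl k β dg eg Fm V m μ B T C x) (hC : C ≤ C') :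
    Concl k β dg eg Fm V m μ B T C' x := by
  obtain ⟨r, u, w, hr, hu, hpx, htan, hw, h1, h2⟩ := h
  have h3 : (C : ℤ) * Module.finrank F L ≤ C' * Module.finrank F L :=
    mul_le_mul_of_nonneg_right (by exact_mod_cast hC) (by positivity)
  exact ⟨r, u, w, hr, hu, hpx, htan, hw, by linarith, by linarith⟩

end

end Pool.Agent.K6.H80.BL
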